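import Pool.Agent.Lib.MP_524519_ag.DU5.TR.Iface

/-! # Module CHN: the chain rules (adapted from DU2/H14/Chn1.lean) -/

set_option autoImplicit false

namespace Pool.Agent.DU5.TR.H57

open MvPowerSeries Pool.Agent.DU5

section

variable {n : ℕ} {k A : Type} [Field k] [CommRing A] [Algebra k A]

/-- The order of a substituted series. -/
theorem coeff_ev_zero (x : Fin n → PowerSeries A)
    (hx : ∀ i, PowerSeries.constantCoeff (x i) = 0) (r : O k n) (N : ℕ)
    (hr : ∀ u : Fin n →₀ ℕ, u.degree < N → coeff u r = 0) (m : ℕ) (hm : m < N) :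
    PowerSeries.coeff m (ev x r) = 0 := by
  have hs : HasSubst x := hasSubst_of_constantCoeff_zero hx
  have h1 : (N : ℕ∞) ≤ r.order := MvPowerSeries.nat_le_order hr
  have h2 := MvPowerSeries.le_order_subst hs r
  have h3 : (1 : ℕ∞) ≤ ⨅ i, MvPowerSeries.order (x i) := by
    refine le_iInf fun i => ?_
    rw [MvPowerSeries.one_le_order_iff_constCoeff_eq_zero]
    exact hx i
  have h4 : (N : ℕ∞) ≤ MvPowerSeries.order (MvPowerSeries.subst x r) := by
    calc (N : ℕ∞) ≤ r.order := h1
      _ = 1 * r.order := by rw [one_mul]
      _ ≤ (⨅ i, MvPowerSeries.order (x i)) * r.order := mul_le_mul_left h3 _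
      _ ≤ _ := h2
  have h5 : ((Finsupp.single () m : Unit →₀ ℕ).degree : ℕ∞) <
      MvPowerSeries.order (MvPowerSeries.subst x r) := by
    refine lt_of_lt_of_le ?_ h4
    simpa using hm
  have h6 := MvPowerSeries.coeff_of_lt_order h5
  simpa [PowerSeries.coeff, ev] using h6

/-- The chain rule for polynomials. -/
theorem chain_poly (x : Fin n → PowerSeries A)
    (D : PowerSeries A → PowerSeries A) (hadd : ∀ a b, D (a + b) = D a + D b)
    (hmul : ∀ a b, D (a * b) = a * D b + b * D a)
    (hconst : ∀ c : k, D (algebraMap k (PowerSeries A) c) = 0) (p : MvPolynomial (Fin n) k) :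
    D (MvPolynomial.aeval x p) =
      ∑ i, MvPolynomial.aeval x (MvPolynomial.pderiv i p) * D (x i) := by
  induction p using MvPolynomial.induction_on with
  | C a => simp [hconst]
  | add p q hp hq =>
    simp only [map_add, hadd, hp, hq, add_mul, Finset.sum_add_distrib]
  | mul_X p j hp =>
    rw [map_mul, MvPolynomial.aeval_X, hmul, hp]
    simp only [Derivation.leibniz, smul_eq_mul, map_add, map_mul, MvPolynomial.aeval_X,
      MvPolynomial.pderiv_X, add_mul, Finset.sum_add_distrib, Finset.mul_sum]
    congr 1
    · rw [Finset.sum_eq_single j]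
      · simp
      · intro i _ hij
        simp [hij.symm]
      · simp
    · refine Finset.sum_congr rfl fun i _ => ?_
      ring

/-- The chain rule for a derivation of `A⟦u⟧` that lowers orders by at most one. -/
theorem chain_general (x : Fin n → PowerSeries A)
    (hx : ∀ i, PowerSeries.constantCoeff (x i) = 0)
    (D : PowerSeries A → PowerSeries A) (hadd : ∀ a b, D (a + b) = D a + D b)
    (hmul : ∀ a b, D (a * b) = a * D b + b * D a)
    (hconst : ∀ c : k, D (algebraMap k (PowerSeries A) c) = 0)
    (hord : ∀ (g : PowerSeries A) (m : ℕ), (∀ l < m + 2, PowerSeries.coeff l g = 0) →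
      PowerSeries.coeff m (D g) = 0) (f : O k n) :
    D (ev x f) = ∑ i, ev x (pderiv k i f) * D (x i) := by
  have hs : HasSubst x := hasSubst_of_constantCoeff_zero hx
  have hevadd : ∀ a b : O k n, ev x (a + b) = ev x a + ev x b := ev_add hx
  ext m
  set p : MvPolynomial (Fin n) k := MvPowerSeries.truncTotal (m + 2) f with hp
  set r : O k n := f - (p : O k n) with hr
  have hf : f = (p : O k n) + r := by rw [hr]; ring
  have hrc : ∀ u : Fin n →₀ ℕ, u.degree < m + 2 → coeff u r = 0 := by
    intro u hu
    have h9 : MvPolynomial.coeff u (MvPowerSeries.truncTotal (m + 2) f) = coeff u f :=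
      MvPowerSeries.coeff_truncTotal _ hu
    rw [hr, map_sub, MvPolynomial.coeff_coe, hp, h9, sub_self]
  have hrd : ∀ i, ∀ u : Fin n →₀ ℕ, u.degree < m + 1 → coeff u (pderiv k i r) = 0 := by
    intro i u hu
    rw [MvPowerSeries.coeff_pderiv, hrc, zero_mul]
    rw [map_add]
    simp only [Finsupp.degree_single]
    omega
  have hpoly : D (ev x (p : O k n)) = ∑ i, ev x (pderiv k i (p : O k n)) * D (x i) := by
    have e1 : ∀ q : MvPolynomial (Fin n) k, ev x (q : O k n) = MvPolynomial.aeval x q := by
      intro q
      unfold ev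
      exact MvPowerSeries.subst_coe q
    rw [e1, chain_poly x D hadd hmul hconst p]
    refine Finset.sum_congr rfl fun i _ => ?_
    rw [MvPowerSeries.pderiv_coe, e1]
  rw [hf, hevadd, hadd, map_add, hpoly]
  have h1 : PowerSeries.coeff m (D (ev x r)) = 0 :=
    hord _ _ fun l hl => coeff_ev_zero x hx r (m + 2) hrc l hl
  rw [h1, add_zero, map_sum, map_sum]
  refine Finset.sum_congr rfl fun i _ => ?_
  rw [map_add, hevadd, add_mul, map_add]
  have h2 : PowerSeries.coeff m (ev x (pderiv k i r) * D (x i)) = 0 := by
    rw [PowerSeries.coeff_mul]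
    refine Finset.sum_eq_zero fun ab hab => ?_
    have hab := Finset.HasAntidiagonal.mem_antidiagonal.mp hab
    rw [coeff_ev_zero x hx (pderiv k i r) (m + 1) (hrd i) ab.1 (by omega), zero_mul]
  rw [h2, add_zero]

end

/-- CHN. The chain rules. -/
theorem chn : ChnStatement := by
  intro n k A _ _ _ D x f hx
  constructor
  · refine chain_general x hx (fun g => PowerSeries.derivative A g) (fun a b => map_add _ a b)
      (fun a b => ?_) (fun c => ?_) (fun g m hg => ?_) f
    · simp [smul_eq_mul]
    · have : (algebraMap k (PowerSeries A) c) = algebraMap A (PowerSeries A) (algebraMap k A c) := by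
        rw [← IsScalarTower.algebraMap_apply]
      rw [this]
      exact Derivation.map_algebraMap _ _
    · rw [PowerSeries.coeff_derivative, hg (m + 1) (by omega), zero_mul]
  · refine chain_general x hx (fun g => dl D g) (fun a b => ?_) (fun a b => ?_) (fun c => ?_)
      (fun g m hg => ?_) f
    · ext m
      simp [dl]
    · ext m
      simp only [dl, PowerSeries.coeff_mk, PowerSeries.coeff_mul, map_sum, map_add,
        Derivation.leibniz, smul_eq_mul, Finset.sum_add_distrib]
      congr 1
      rw [← Finset.Nat.sum_antidiagonal_swap]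
      rfl
    · ext m
      simp only [dl, PowerSeries.coeff_mk]
      have : (algebraMap k (PowerSeries A) c) = PowerSeries.C (algebraMap k A c) := by
        rw [IsScalarTower.algebraMap_apply k A (PowerSeries A)]
        rfl
      rw [this, PowerSeries.coeff_C]
      split_ifs
      · simp
      · simp
    · simp only [dl, PowerSeries.coeff_mk]
      rw [hg m (by omega), map_zero]

end Pool.Agent.DU5.TR.H57
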